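import Mathlib

/-!
# No `3 x 3` integer matrix without zero entries has `det A = det A^{o2} = det A^{o3} = 1`

Let `P₁, P₂, P₃` be the three products of entries along even permutations and
`N₁, N₂, N₃` those along odd permutations.  Both triples have the same product `E`
(the product of all nine entries).  The three determinant conditions say that the first three
power sums of the `P`s exceed those of the `N`s by `1`.  Newton's identities then give
`e₂(N) = 0`, that every `Pᵢ` is a root of `x (x - 1) (x - S) = E` and that every `Nⱼ` is a root of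
`y ^ 2 (y - S) = E`, where `S = N₁ + N₂ + N₃`.  If `E ≠ 0`, comparing the two negative
(or the two positive) roots shows that an integer lies strictly between two
consecutive integers.
-/

namespace Pool.Agent.Results.MP_0f7e3e_nt.NoUnimodularCubes

/-- Monotonicity step, negative roots. -/
private lemma no_between_neg (u v S : ℤ) (hu : 1 ≤ u) (hv : 1 ≤ v) (hS : 0 < S)
    (h : v ^ 2 * (v + S) = u * (u + 1) * (u + S)) : False := by
  rcases le_or_gt v u with hle | hlt
  · have h1 : v ^ 2 ≤ u ^ 2 := by nlinarith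
    have h2 : v + S ≤ u + S := by linarith
    have h3 : v ^ 2 * (v + S) ≤ u ^ 2 * (u + S) :=
      mul_le_mul h1 h2 (by linarith) (by positivity)
    have h4 : 0 < u * (u + S) := by positivity
    nlinarith
  · have hge : u + 1 ≤ v := hlt
    have h1 : (u + 1) ^ 2 ≤ v ^ 2 := by nlinarith
    have h2 : u + 1 + S ≤ v + S := by linarith
    have h3 : (u + 1) ^ 2 * (u + 1 + S) ≤ v ^ 2 * (v + S) :=
      mul_le_mul h1 h2 (by linarith) (by positivity)
    have h4 : 0 < (u + 1) * (u + S) := by positivity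
    have h5 : 0 < (u + 1) ^ 2 := by positivity
    nlinarith

/-- Monotonicity step, positive roots. -/
private lemma no_between_pos (u v σ : ℤ) (hu : 1 ≤ u) (hv : 1 ≤ v) (hσ : 0 < σ)
    (h : v ^ 2 * (v + σ) = u * (u - 1) * (u + σ)) : False := by
  rcases le_or_gt u v with hle | hlt
  · have h1 : u ^ 2 ≤ v ^ 2 := by nlinarith
    have h2 : u + σ ≤ v + σ := by linarith
    have h3 : u ^ 2 * (u + σ) ≤ v ^ 2 * (v + σ) :=
      mul_le_mul h1 h2 (by linarith) (by positivity)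
    have h4 : 0 < u * (u + σ) := by positivity
    nlinarith
  · obtain ⟨w, rfl⟩ : ∃ w, u = w + 1 := ⟨u - 1, by ring⟩
    have hge : v ≤ w := by linarith
    have hw : 1 ≤ w := by linarith
    have h1 : v ^ 2 ≤ w ^ 2 := by nlinarith
    have h2 : v + σ ≤ w + σ := by linarith
    have h3 : v ^ 2 * (v + σ) ≤ w ^ 2 * (w + σ) :=
      mul_le_mul h1 h2 (by linarith) (by positivity)
    have h4 : 0 < w * (w + σ) := by positivity
    have h5 : 0 < (w + 1) * w := by positivity
    nlinarith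

/-- Two integer triples with the same nonzero product cannot have their first three power sums
differing by exactly one each. -/
theorem triple (P₁ P₂ P₃ N₁ N₂ N₃ : ℤ)
    (hE : P₁ * P₂ * P₃ = N₁ * N₂ * N₃) (hne : P₁ * P₂ * P₃ ≠ 0)
    (h1 : (P₁ + P₂ + P₃) - (N₁ + N₂ + N₃) = 1)
    (h2 : (P₁ ^ 2 + P₂ ^ 2 + P₃ ^ 2) - (N₁ ^ 2 + N₂ ^ 2 + N₃ ^ 2) = 1)
    (h3 : (P₁ ^ 3 + P₂ ^ 3 + P₃ ^ 3) - (N₁ ^ 3 + N₂ ^ 3 + N₃ ^ 3) = 1) : False := by
  set S : ℤ := N₁ + N₂ + N₃ with hS
  have hE2' : 2 * ((P₁ * P₂ + P₁ * P₃ + P₂ * P₃) - (N₁ * N₂ + N₁ * N₃ + N₂ * N₃) - S) = 0 := by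
    rw [hS]
    rw [hS] at h1
    linear_combination (P₁ + P₂ + P₃ + (N₁ + N₂ + N₃) + 1) * h1 - h2
  have hE2 : (P₁ * P₂ + P₁ * P₃ + P₂ * P₃) - (N₁ * N₂ + N₁ * N₃ + N₂ * N₃) - S = 0 := by
    linarith
  have hN2' : 3 * (N₁ * N₂ + N₁ * N₃ + N₂ * N₃) = 0 := by
    rw [hS] at h1 hE2
    linear_combination (-1) * h3 + ((P₁ + P₂ + P₃) ^ 2 + (P₁ + P₂ + P₃) * (N₁ + N₂ + N₃ + 1)
      + (N₁ + N₂ + N₃ + 1) ^ 2 - 3 * (P₁ * P₂ + P₁ * P₃ + P₂ * P₃)) * h1
      - 3 * (N₁ + N₂ + N₃ + 1) * hE2 + 3 * hE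
  have hN2 : N₁ * N₂ + N₁ * N₃ + N₂ * N₃ = 0 := by linarith
  have hP2 : P₁ * P₂ + P₁ * P₃ + P₂ * P₃ = S := by linarith
  have hP1 : P₁ + P₂ + P₃ = S + 1 := by linarith
  -- the cubic equations
  have hPr : ∀ x : ℤ, (x = P₁ ∨ x = P₂ ∨ x = P₃) →
      x * (x - 1) * (x - S) = P₁ * P₂ * P₃ := by
    intro x hx
    have hx0 : (x - P₁) * (x - P₂) * (x - P₃) = 0 := by
      rcases hx with rfl | rfl | rfl <;> ring
    linear_combination hx0 + x ^ 2 * hP1 - x * hP2
  have hNr : ∀ y : ℤ, (y = N₁ ∨ y = N₂ ∨ y = N₃) →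
      y ^ 2 * (y - S) = P₁ * P₂ * P₃ := by
    intro y hy
    have hy0 : (y - N₁) * (y - N₂) * (y - N₃) = 0 := by
      rcases hy with rfl | rfl | rfl <;> ring
    rw [hE, hS]
    linear_combination hy0 - y * hN2
  -- `S ^ 2 = N₁ ^ 2 + N₂ ^ 2 + N₃ ^ 2`
  have hSsq : S ^ 2 = N₁ ^ 2 + N₂ ^ 2 + N₃ ^ 2 := by
    rw [hS]; linear_combination 2 * hN2
  have hSge : ∀ y : ℤ, (y = N₁ ∨ y = N₂ ∨ y = N₃) → y ^ 2 ≤ S ^ 2 := by
    intro y hy
    rw [hSsq]
    rcases hy with h | h | h <;> rw [h] <;>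
      nlinarith [sq_nonneg N₁, sq_nonneg N₂, sq_nonneg N₃]
  rcases lt_or_gt_of_ne hne with hneg | hpos
  · -- `E < 0`
    obtain ⟨x, hx, hxneg⟩ : ∃ x : ℤ, (x = P₁ ∨ x = P₂ ∨ x = P₃) ∧ x < 0 := by
      by_contra hcon
      push Not at hcon
      have a1 := hcon P₁ (Or.inl rfl)
      have a2 := hcon P₂ (Or.inr (Or.inl rfl))
      have a3 := hcon P₃ (Or.inr (Or.inr rfl))
      have : 0 ≤ P₁ * P₂ * P₃ := by positivity
      linarith
    obtain ⟨y, hy, hyneg⟩ : ∃ y : ℤ, (y = N₁ ∨ y = N₂ ∨ y = N₃) ∧ y < 0 := by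
      by_contra hcon
      push Not at hcon
      have a1 := hcon N₁ (Or.inl rfl)
      have a2 := hcon N₂ (Or.inr (Or.inl rfl))
      have a3 := hcon N₃ (Or.inr (Or.inr rfl))
      have : 0 ≤ N₁ * N₂ * N₃ := by positivity
      linarith
    have ex := hPr x hx
    have ey := hNr y hy
    have hy2 : 0 < y ^ 2 := by nlinarith
    have hyS : y - S < 0 := by
      by_contra hcon
      push Not at hcon
      have : 0 ≤ y ^ 2 * (y - S) := by positivity
      linarith
    have hSpos : 0 < S := by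
      have := hSge y hy
      nlinarith
    apply no_between_neg (-x) (-y) S (by linarith) (by linarith) hSpos
    linear_combination ex - ey
  · -- `E > 0`
    obtain ⟨y, hy, hypos⟩ : ∃ y : ℤ, (y = N₁ ∨ y = N₂ ∨ y = N₃) ∧ 0 < y := by
      by_contra hcon
      push Not at hcon
      have a1 := hcon N₁ (Or.inl rfl)
      have a2 := hcon N₂ (Or.inr (Or.inl rfl))
      have a3 := hcon N₃ (Or.inr (Or.inr rfl))
      have h12 : 0 ≤ N₁ * N₂ := mul_nonneg_of_nonpos_of_nonpos a1 a2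
      have : N₁ * N₂ * N₃ ≤ 0 := mul_nonpos_of_nonneg_of_nonpos h12 a3
      linarith
    obtain ⟨x, hx, hxpos⟩ : ∃ x : ℤ, (x = P₁ ∨ x = P₂ ∨ x = P₃) ∧ 0 < x := by
      by_contra hcon
      push Not at hcon
      have a1 := hcon P₁ (Or.inl rfl)
      have a2 := hcon P₂ (Or.inr (Or.inl rfl))
      have a3 := hcon P₃ (Or.inr (Or.inr rfl))
      have h12 : 0 ≤ P₁ * P₂ := mul_nonneg_of_nonpos_of_nonpos a1 a2
      have : P₁ * P₂ * P₃ ≤ 0 := mul_nonpos_of_nonneg_of_nonpos h12 a3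
      linarith
    have ex := hPr x hx
    have ey := hNr y hy
    have hy2 : 0 < y ^ 2 := by positivity
    have hyS : 0 < y - S := by
      by_contra hcon
      push Not at hcon
      have : y ^ 2 * (y - S) ≤ 0 := mul_nonpos_of_nonneg_of_nonpos hy2.le hcon
      linarith
    have hSneg : S < 0 := by
      have := hSge y hy
      nlinarith
    apply no_between_pos x y (-S) (by linarith) (by linarith) (by linarith)
    linear_combination ey - ex

/-- There is no `3 x 3` integer matrix `A` all of whose nine entries are nonzero (in particular none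
with all entries outside `{0, 1, -1}`) such that the determinants of `A`, of the matrix of squares
of its entries and of the matrix of cubes of its entries are all equal to `1`. -/
theorem result : ¬ ∃ A : Matrix (Fin 3) (Fin 3) ℤ, (∀ i j, A i j ≠ 0) ∧
    A.det = 1 ∧ (A.map (fun x => x ^ 2)).det = 1 ∧ (A.map (fun x => x ^ 3)).det = 1 := by
  rintro ⟨A, hA, h1, h2, h3⟩
  rw [Matrix.det_fin_three] at h1 h2 h3
  simp only [Matrix.map_apply] at h2 h3
  apply triple (A 0 0 * A 1 1 * A 2 2) (A 0 1 * A 1 2 * A 2 0) (A 0 2 * A 1 0 * A 2 1)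
    (A 0 0 * A 1 2 * A 2 1) (A 0 1 * A 1 0 * A 2 2) (A 0 2 * A 1 1 * A 2 0)
  · ring
  · simp [hA]
  · linear_combination h1
  · linear_combination h2
  · linear_combination h3

end Pool.Agent.Results.MP_0f7e3e_nt.NoUnimodularCubes
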